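import Pool.Agent.Helper20.P3F.St1

/-! # Module TWC of project EQ: two classes -/

set_option autoImplicit false

open MeasureTheory Set Filter Topology
open scoped ENNReal RealInnerProductSpace

namespace Pool.Agent.Helper20.P3F

open Pool.Agent.Helper68.LM (Pl BB Bd Av HL ft fm DQ)
open Pool.Agent.Helper68.EP (elt GapP StGPG)
open Pool.Agent.Helper20.RG Pool.Agent.Helper20.EQ

private theorem meas_Av_TWC (ν : Measure Pl) [SFinite ν] (t : ℝ) (g : Pl → ℝ)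
    (hg : Measurable g) : Measurable (Av ν t g) := by
  have h : StronglyMeasurable (fun z : Pl × Pl => g (z.1 - t • z.2)) :=
    (hg.comp (by fun_prop)).stronglyMeasurable
  exact h.integral_prod_right'.measurable

private theorem meas_Y_TWC (s : ℝ) (c : Pl) (m : ℕ) (l : ℝ) (k : ℤ) (g : Pl → ℝ)
    (hg : Measurable g) : Measurable (Y s c m l k g) := by
  have h1 : SFinite (sg s) := by unfold sg; infer_instance
  have h2 : SFinite bx := by unfold bx; infer_instance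
  have h3 := meas_Av_TWC (sg s) ((2 : ℝ) ^ k * l) _
    (meas_Av_TWC bx (2 * (2 : ℝ) ^ (k - (m : ℤ))) g hg)
  exact h3.comp (measurable_id.sub measurable_const)

private theorem meas_Z_TWC (s : ℝ) (c : Pl) (m m' : ℕ) (l : ℝ) (k : ℤ) (g : Pl → ℝ)
    (hg : Measurable g) : Measurable (Z s c m m' l k g) :=
  (meas_Y_TWC s c m l k g hg).sub (meas_Y_TWC s c m' l k g hg)

private theorem meas_MD_TWC (s : ℝ) (c : Pl) (m m' V : ℕ) (k : ℤ) (g : Pl → ℝ)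
    (hg : Measurable g) : Measurable (MD s c m m' V k g) := by
  have e : MD s c m m' V k g = fun x => ⨆ w ∈ ((Finset.range (V + 1) : Finset ℕ) : Set ℕ),
      ‖Z s c m m' ((2 : ℝ) ^ w) k g x - Z s c m m' ((2 : ℝ) ^ 0) k g x‖ₑ := by
    funext x
    unfold MD
    rw [Finset.sup_eq_iSup]
    rfl
  rw [e]
  refine Measurable.biSup _ (Finset.countable_toSet _) fun w _ => ?_
  exact ((meas_Z_TWC s c m m' _ k g hg).sub (meas_Z_TWC s c m m' _ k g hg)).enorm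

private theorem cheb_TWC (N : ℕ) (F : ℕ → Pl → ℝ≥0∞) (hF : ∀ j, Measurable (F j)) (ε : ℝ)
    (hε : 0 < ε) :
    volume {x | ∃ j < N, ENNReal.ofReal ε ≤ F j x} ≤
      ENNReal.ofReal (1 / ε ^ 2) * ∑ j ∈ Finset.range N, ∫⁻ x, F j x ^ 2 := by
  have h1 : {x | ∃ j < N, ENNReal.ofReal ε ≤ F j x} ⊆
      ⋃ j ∈ Finset.range N, {x | ENNReal.ofReal (ε ^ 2) ≤ F j x ^ 2} := by
    rintro x ⟨j, hj, hx⟩
    simp only [mem_iUnion, mem_ofPred_eq]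
    refine ⟨j, Finset.mem_range.2 hj, ?_⟩
    rw [ENNReal.ofReal_pow hε.le]
    gcongr
  refine (measure_mono h1).trans ((measure_biUnion_finset_le _ _).trans ?_)
  rw [Finset.mul_sum]
  refine Finset.sum_le_sum fun j _ => ?_
  have h2 := mul_meas_ge_le_lintegral₀ (μ := (volume : Measure Pl))
    ((hF j).pow_const 2).aemeasurable (ENNReal.ofReal (ε ^ 2))
  calc volume {x | ENNReal.ofReal (ε ^ 2) ≤ F j x ^ 2}
      = ENNReal.ofReal (1 / ε ^ 2) *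
          (ENNReal.ofReal (ε ^ 2) * volume {x | ENNReal.ofReal (ε ^ 2) ≤ F j x ^ 2}) := by
        rw [← mul_assoc, ← ENNReal.ofReal_mul (by positivity)]
        rw [one_div_mul_cancel (by positivity), ENNReal.ofReal_one, one_mul]
    _ ≤ _ := mul_le_mul' le_rfl h2

private theorem pers_TWC {s : ℝ} {c : Pl} {m m' V : ℕ} {k : ℤ} {g : Pl → ℝ} {x : Pl} {η : ℝ}
    (h0 : η ≤ |Z s c m m' ((2 : ℝ) ^ 0) k g x|)
    (hM : ¬ ENNReal.ofReal (η / 2) ≤ MD s c m m' V k g x) {w : ℕ} (hw : w ≤ V) :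
    η / 2 ≤ |Z s c m m' ((2 : ℝ) ^ w) k g x| := by
  by_contra hc
  apply hM
  have h1 : η / 2 ≤ |Z s c m m' ((2 : ℝ) ^ w) k g x - Z s c m m' ((2 : ℝ) ^ 0) k g x| := by
    have h4 := not_le.1 hc
    clear hM hc
    generalize Z s c m m' ((2 : ℝ) ^ 0) k g x = z0 at *
    generalize Z s c m m' ((2 : ℝ) ^ w) k g x = zw at *
    have h2 := abs_sub_abs_le_abs_sub z0 zw
    rw [abs_sub_comm] at h2
    linarith
  have h3 : ENNReal.ofReal (η / 2) ≤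
      ‖Z s c m m' ((2 : ℝ) ^ w) k g x - Z s c m m' ((2 : ℝ) ^ 0) k g x‖ₑ := by
    rw [Real.enorm_eq_ofReal_abs]
    exact ENNReal.ofReal_le_ofReal h1
  refine h3.trans ?_
  unfold MD
  exact Finset.le_sup (f := fun w => ‖Z s c m m' ((2 : ℝ) ^ w) k g x -
    Z s c m m' ((2 : ℝ) ^ 0) k g x‖ₑ) (Finset.mem_range.2 (by omega))

private theorem gap_TWC (hWT : StWT) (hCQ : StCQ) (hCN : StCN) (hGPG : StGPG)
    {φ τ : ℝ → ℝ} {A p : ℝ} (hG : Graph φ τ) (hA : 0 < A) (hGap : GapP A p τ) (hp : 1 < p)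
    (u s ρ a b : ℕ) (y : ℝ) (hu : 1 ≤ u) (hs : 2 ≤ s) (hy : 2 ≤ y)
    (hab : (2 : ℝ) ^ (-((Wt τ u y (sl τ u a) + 1 : ℕ) : ℤ)) < |sl τ u a - sl τ (u + s) b|) :
    sl τ u a ≠ sl τ (u + s) b ∧ ∀ i ∈ Finset.Icc 1 41,
      i * ga (sl τ u a) (sl τ (u + s) b) (ρ + 1) ≤ 10000 * (Wt τ u y (sl τ u a) + (ρ + 1)) ∧
      i * ga (sl τ u a) (sl τ (u + s) b) (ρ + 1) ≤
        10000 * (Wt τ (u + s) y (sl τ (u + s) b) + (ρ + 1)) := by
  have hx : 0 < |sl τ u a - sl τ (u + s) b| := lt_trans (by positivity) hab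
  have hne : sl τ u a ≠ sl τ (u + s) b := by
    intro h
    rw [h, sub_self, abs_zero] at hx
    exact lt_irrefl _ hx
  have hW := hWT φ τ A p hG hA hGap hp u y (sl τ u a) hu hy
  have hW' := hWT φ τ A p hG hA hGap hp (u + s) y (sl τ (u + s) b) (by omega) hy
  have h1 : Aa (sl τ u a) (sl τ (u + s) b) ≤ Wt τ u y (sl τ u a) + 1 := by
    unfold Aa
    rw [Nat.ceil_le]
    have h2 : -((Wt τ u y (sl τ u a) + 1 : ℕ) : ℝ) < Real.logb 2 |sl τ u a - sl τ (u + s) b| := by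
      rw [Real.lt_logb_iff_rpow_lt (by norm_num) hx]
      refine lt_of_eq_of_lt ?_ hab
      rw [← Real.rpow_intCast]
      congr 1
      push_cast
      ring
    linarith
  have h2 : Aa (sl τ u a) (sl τ (u + s) b) ≤ Wt τ (u + s) y (sl τ (u + s) b) + 2 := by
    by_contra hc
    obtain ⟨i, hi⟩ : ∃ i, Aa (sl τ u a) (sl τ (u + s) b) = i + 2 :=
      ⟨Aa (sl τ u a) (sl τ (u + s) b) - 2, by omega⟩
    have h3 : |sl τ u a - sl τ (u + s) b| ≤ (2 : ℝ) ^ (-((i + 1 : ℕ) : ℤ)) := by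
      have h4 : i + 1 < Aa (sl τ u a) (sl τ (u + s) b) := by omega
      unfold Aa at h4
      rw [Nat.lt_ceil] at h4
      have h5 : Real.logb 2 |sl τ u a - sl τ (u + s) b| < -((i + 1 : ℕ) : ℝ) := by linarith
      rw [Real.logb_lt_iff_lt_rpow (by norm_num) hx] at h5
      refine h5.le.trans (le_of_eq ?_)
      rw [← Real.rpow_intCast]
      congr 1
      push_cast
      ring
    have h6 : y ≤ (nn τ u (sl τ u a) (Wt τ u y (sl τ u a)) : ℝ) := hW.2.1 (by omega)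
    have h7 : nn τ u (sl τ u a) (Wt τ u y (sl τ u a)) ≤ nn τ u (sl τ u a) (i + 1) := by
      have hanti : Antitone (nn τ u (sl τ u a)) :=
        antitone_nat_of_succ_le fun j => (hCN φ τ hG u j (sl τ u a)).2.2.2.2.2.1
      exact hanti (by omega)
    have h7' : (nn τ u (sl τ u a) (Wt τ u y (sl τ u a)) : ℝ) ≤ nn τ u (sl τ u a) (i + 1) := by
      exact_mod_cast h7
    have h8 := (hCQ φ τ (A ^ (1 / p)) p 0 hG (hGPG τ A p hA (by linarith) hGap)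
      (Real.rpow_pos_of_pos hA _) (by linarith) u hu).2 (u + s) i (sl τ u a) (sl τ (u + s) b)
      (by omega) h3
    rw [show u + s - u = s by omega] at h8
    have h9 : (4 : ℝ) ≤ (2 : ℝ) ^ s := by
      calc (4 : ℝ) = (2 : ℝ) ^ 2 := by norm_num
        _ ≤ (2 : ℝ) ^ s := pow_le_pow_right₀ (by norm_num) hs
    have h10 : y ≤ (nn τ (u + s) (sl τ (u + s) b) i : ℝ) := by nlinarith
    have h11 := hW'.1 i h10
    omega
  refine ⟨hne, fun i hi => ?_⟩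
  rw [Finset.mem_Icc] at hi
  unfold ga
  have h3 : i * (16 * (Aa (sl τ u a) (sl τ (u + s) b) + (ρ + 1) + 10)) ≤
      41 * (16 * (Aa (sl τ u a) (sl τ (u + s) b) + (ρ + 1) + 10)) := Nat.mul_le_mul_right _ hi.2
  constructor <;> omega

private theorem loc_TWC {Cf Cf' D : ℝ} {g : Pl → ℝ} {x : Pl} (h : Cf' ≤ Cf) (hL : Loc Cf D g x) :
    Loc Cf' D g x := by
  intro k
  refine (lintegral_mono_set ?_).trans (hL k)
  intro y hy
  have h1 : Cf' * (2 : ℝ) ^ k ≤ Cf * (2 : ℝ) ^ k := mul_le_mul_of_nonneg_right h (by positivity)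
  exact ⟨hy.1.trans h1, hy.2.trans h1⟩

private theorem lin_TWC (q t ρ u C2 : ℕ) (hC : 256 + 32 * (q + 1) ≤ C2)
    (h : C2 * (t + ρ + 1) ≤ u) : 32 * (q + t + ρ + 1) + 256 ≤ u := by
  have h1 : (256 + 32 * (q + 1)) * (t + ρ + 1) ≤ u := (Nat.mul_le_mul_right _ hC).trans h
  have h2 : q ≤ q * (t + ρ + 1) := Nat.le_mul_of_pos_right _ (by omega)
  nlinarith

private theorem four_TWC (n : ℤ) : (4 : ℝ) ^ n = (2 : ℝ) ^ (2 * (n : ℝ)) := by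
  rw [Real.rpow_mul (by norm_num), Real.rpow_intCast]
  norm_num

private theorem num_TWC (q t ρ u s : ℕ) (B : ℝ) (hB : 1 ≤ B) (hq : B ≤ (2 : ℝ) ^ q)
    (hu : 32 * (q + t + ρ + 1) + 256 ≤ u) (hs : 32 * (q + t + ρ + 1) + 256 ≤ s) :
    B * (2 : ℝ) ^ (-((s : ℝ) / 4)) ≤ (2 : ℝ) ^ (-((ρ : ℤ) + 1)) ∧
    B * ((2 : ℝ) ^ (-((s : ℝ) / 16)) + B * (4 : ℝ) ^ ((t : ℤ) - u - ρ)) ≤
      (2 : ℝ) ^ (-((ρ : ℤ) + 1)) ∧
    B * (4 : ℝ) ^ ((t : ℤ) - u - s - ρ) ≤ (2 : ℝ) ^ (-((s : ℝ) / 4)) ∧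
    B / ((2 : ℝ) ^ (-((s : ℝ) / 4))) ^ 2 = B * (2 : ℝ) ^ ((s : ℝ) / 2) ∧
    B * (2 : ℝ) ^ (-((s : ℝ) / 4)) / (((2 : ℝ) ^ (-((ρ : ℤ) + 1))) ^ 2 *
      ((2 : ℝ) ^ (-((s : ℝ) / 16)) + B * (4 : ℝ) ^ ((t : ℤ) - u - ρ)) ^ 2) ≤
      4 * B * (4 : ℝ) ^ ρ * (2 : ℝ) ^ (-((s : ℝ) / 8)) ∧
    ∀ M : ℝ, 0 ≤ M → M ≤ (2 : ℝ) ^ u → M ≤ 2 * ((2 : ℝ) ^ ((s : ℝ) / 256)) ^ 3 →
      B * ((2 : ℝ) ^ (-((s : ℝ) / 16)) + B * (4 : ℝ) ^ ((t : ℤ) - u - ρ)) * M /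
        ((2 : ℝ) ^ (-((ρ : ℤ) + 1))) ^ 5 ≤
      64 * B ^ 2 * (32 : ℝ) ^ ρ * ((2 : ℝ) ^ (-((s : ℝ) / 32)) + (4 : ℝ) ^ t * (2 : ℝ) ^ (-(u : ℝ))) := by
  have h2 : (0 : ℝ) < 2 := by norm_num
  have hle : ∀ x y : ℝ, x ≤ y → (2 : ℝ) ^ x ≤ (2 : ℝ) ^ y := fun x y h =>
    Real.rpow_le_rpow_of_exponent_le (by norm_num) h
  have hpos : ∀ x : ℝ, 0 < (2 : ℝ) ^ x := fun x => Real.rpow_pos_of_pos h2 x
  have hadd : ∀ x y : ℝ, (2 : ℝ) ^ x * (2 : ℝ) ^ y = (2 : ℝ) ^ (x + y) := fun x y =>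
    (Real.rpow_add h2 x y).symm
  have hu' : 32 * ((q : ℝ) + t + ρ + 1) + 256 ≤ u := by exact_mod_cast hu
  have hs' : 32 * ((q : ℝ) + t + ρ + 1) + 256 ≤ s := by exact_mod_cast hs
  have q0 : (0 : ℝ) ≤ q := Nat.cast_nonneg _
  have t0 : (0 : ℝ) ≤ t := Nat.cast_nonneg _
  have r0 : (0 : ℝ) ≤ ρ := Nat.cast_nonneg _
  have hBq : B ≤ (2 : ℝ) ^ (q : ℝ) := by rwa [Real.rpow_natCast]
  have hη : (2 : ℝ) ^ (-((ρ : ℤ) + 1)) = (2 : ℝ) ^ (-((ρ : ℝ) + 1)) := by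
    rw [← Real.rpow_intCast]
    congr 1
    push_cast
    ring
  have hD : (4 : ℝ) ^ ((t : ℤ) - u - ρ) = (2 : ℝ) ^ (2 * ((t : ℝ) - u - ρ)) := by
    rw [four_TWC]
    congr 1
    push_cast
    ring
  have hD' : (4 : ℝ) ^ ((t : ℤ) - u - s - ρ) = (2 : ℝ) ^ (2 * ((t : ℝ) - u - s - ρ)) := by
    rw [four_TWC]
    congr 1
    push_cast
    ring
  have h4 : ∀ n : ℕ, (4 : ℝ) ^ n = (2 : ℝ) ^ (2 * (n : ℝ)) := by
    intro n
    rw [Real.rpow_mul h2.le, Real.rpow_natCast]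
    norm_num
  have h32 : (32 : ℝ) ^ ρ = (2 : ℝ) ^ (5 * (ρ : ℝ)) := by
    rw [Real.rpow_mul h2.le, Real.rpow_natCast]
    norm_num
  have hpw : ∀ (x : ℝ) (n : ℕ), ((2 : ℝ) ^ x) ^ n = (2 : ℝ) ^ (x * n) := by
    intro x n
    rw [Real.rpow_mul h2.le, Real.rpow_natCast]
  have hinv : ∀ x : ℝ, 1 / (2 : ℝ) ^ x = (2 : ℝ) ^ (-x) := by
    intro x
    rw [Real.rpow_neg h2.le, one_div]
  have hBp : 0 < B := by linarith
  rw [hη, hD, hD']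
  refine ⟨?_, ?_, ?_, ?_, ?_, ?_⟩
  · refine (mul_le_mul_of_nonneg_right hBq (hpos _).le).trans ?_
    rw [hadd]
    exact hle _ _ (by linarith)
  · have e1 : B * (2 : ℝ) ^ (-((s : ℝ) / 16)) ≤ (2 : ℝ) ^ (-((ρ : ℝ) + 1) - 1) := by
      refine (mul_le_mul_of_nonneg_right hBq (hpos _).le).trans ?_
      rw [hadd]
      exact hle _ _ (by linarith)
    have e2 : B * (B * (2 : ℝ) ^ (2 * ((t : ℝ) - u - ρ))) ≤ (2 : ℝ) ^ (-((ρ : ℝ) + 1) - 1) := by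
      refine (mul_le_mul hBq (mul_le_mul_of_nonneg_right hBq (hpos _).le) (by positivity)
        (hpos _).le).trans ?_
      rw [hadd, hadd]
      exact hle _ _ (by linarith)
    have e3 : (2 : ℝ) ^ (-((ρ : ℝ) + 1) - 1) + (2 : ℝ) ^ (-((ρ : ℝ) + 1) - 1) =
        (2 : ℝ) ^ (-((ρ : ℝ) + 1)) := by
      rw [Real.rpow_sub h2, Real.rpow_one]
      ring
    rw [mul_add, ← e3]
    exact add_le_add e1 e2
  · refine (mul_le_mul_of_nonneg_right hBq (hpos _).le).trans ?_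
    rw [hadd]
    exact hle _ _ (by linarith)
  · rw [hpw, div_eq_mul_one_div, hinv]
    congr 2
    push_cast
    ring
  · have e1 : ((2 : ℝ) ^ (-((s : ℝ) / 16))) ^ 2 ≤
        ((2 : ℝ) ^ (-((s : ℝ) / 16)) + B * (2 : ℝ) ^ (2 * ((t : ℝ) - u - ρ))) ^ 2 := by
      refine pow_le_pow_left₀ (hpos _).le ?_ 2
      have := mul_pos hBp (hpos (2 * ((t : ℝ) - u - ρ)))
      linarith
    have e2 : B * (2 : ℝ) ^ (-((s : ℝ) / 4)) / (((2 : ℝ) ^ (-((ρ : ℝ) + 1))) ^ 2 *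
        ((2 : ℝ) ^ (-((s : ℝ) / 16)) + B * (2 : ℝ) ^ (2 * ((t : ℝ) - u - ρ))) ^ 2) ≤
        B * (2 : ℝ) ^ (-((s : ℝ) / 4)) / (((2 : ℝ) ^ (-((ρ : ℝ) + 1))) ^ 2 *
        ((2 : ℝ) ^ (-((s : ℝ) / 16))) ^ 2) := by
      refine div_le_div_of_nonneg_left (by positivity) (by positivity) ?_
      exact mul_le_mul_of_nonneg_left e1 (by positivity)
    refine e2.trans (le_of_eq ?_)
    rw [hpw, hpw, hadd, h4, div_eq_mul_one_div, hinv, mul_assoc, hadd]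
    have e3 : (4 : ℝ) * B * (2 : ℝ) ^ (2 * (ρ : ℝ)) * (2 : ℝ) ^ (-((s : ℝ) / 8)) =
        B * ((2 : ℝ) ^ (2 : ℝ) * (2 : ℝ) ^ (2 * (ρ : ℝ)) * (2 : ℝ) ^ (-((s : ℝ) / 8))) := by
      rw [show (2 : ℝ) ^ (2 : ℝ) = 4 by norm_num]
      ring
    rw [e3, hadd, hadd]
    congr 2
    push_cast
    ring
  · intro M hM0 hM1 hM2
    rw [hpw] at hM2
    have e1 : (2 : ℝ) ^ (-((s : ℝ) / 16)) * M ≤ 2 * (2 : ℝ) ^ (-((s : ℝ) / 32)) := by
      refine (mul_le_mul_of_nonneg_left hM2 (hpos _).le).trans ?_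
      rw [mul_left_comm, hadd]
      refine mul_le_mul_of_nonneg_left (hle _ _ ?_) (by norm_num)
      push_cast
      linarith
    have e2 : (2 : ℝ) ^ (2 * ((t : ℝ) - u - ρ)) * M ≤ (2 : ℝ) ^ (2 * (t : ℝ) - u) := by
      refine (mul_le_mul_of_nonneg_left hM1 (hpos _).le).trans ?_
      rw [← Real.rpow_natCast, hadd]
      exact hle _ _ (by linarith)
    have e3 : (4 : ℝ) ^ t * (2 : ℝ) ^ (-(u : ℝ)) = (2 : ℝ) ^ (2 * (t : ℝ) - u) := by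
      rw [h4, hadd]
      congr 1
    have e4 : 1 / ((2 : ℝ) ^ (-((ρ : ℝ) + 1))) ^ 5 = 32 * (2 : ℝ) ^ (5 * (ρ : ℝ)) := by
      rw [hpw, hinv, show (32 : ℝ) = (2 : ℝ) ^ (5 : ℝ) by norm_num, hadd]
      congr 1
      push_cast
      ring
    rw [e3, h32, div_eq_mul_one_div, e4]
    have hX := hpos (-((s : ℝ) / 32))
    have hX' := hpos (2 * (t : ℝ) - u)
    have hX'' := hpos (5 * (ρ : ℝ))
    generalize (2 : ℝ) ^ (-((s : ℝ) / 32)) = X at *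
    generalize (2 : ℝ) ^ (2 * (t : ℝ) - u) = X' at *
    generalize (2 : ℝ) ^ (5 * (ρ : ℝ)) = X'' at *
    have e5 : B * ((2 : ℝ) ^ (-((s : ℝ) / 16)) + B * (2 : ℝ) ^ (2 * ((t : ℝ) - u - ρ))) * M ≤
        B * (2 * X + B * X') := by
      have : B * ((2 : ℝ) ^ (-((s : ℝ) / 16)) + B * (2 : ℝ) ^ (2 * ((t : ℝ) - u - ρ))) * M =
          B * ((2 : ℝ) ^ (-((s : ℝ) / 16)) * M + B * ((2 : ℝ) ^ (2 * ((t : ℝ) - u - ρ)) * M)) := by
        ring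
      rw [this]
      exact mul_le_mul_of_nonneg_left (add_le_add e1 (mul_le_mul_of_nonneg_left e2 hBp.le)) hBp.le
    have e6 : B * (2 * X + B * X') ≤ 2 * B ^ 2 * (X + X') := by
      nlinarith [mul_nonneg (mul_nonneg hBp.le (sub_nonneg.2 hB)) hX.le, mul_pos (mul_pos hBp hBp) hX']
    calc B * ((2 : ℝ) ^ (-((s : ℝ) / 16)) + B * (2 : ℝ) ^ (2 * ((t : ℝ) - u - ρ))) * M * (32 * X'')
        ≤ (2 * B ^ 2 * (X + X')) * (32 * X'') :=
          mul_le_mul_of_nonneg_right (e5.trans e6) (by positivity)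
      _ = 64 * B ^ 2 * X'' * (X + X') := by ring

/-- `Q`: few chords of class `u` or nearby slopes -/
private def Q_TWC (τ : ℝ → ℝ) (u s : ℕ) (y : ℝ) (a b : ℕ) : Prop :=
  (2 : ℝ) ^ u < y ^ 3 ∨
    |sl τ u a - sl τ (u + s) b| ≤ (2 : ℝ) ^ (-((Wt τ u y (sl τ u a) + 1 : ℕ) : ℤ))

private theorem card_TWC (hWT : StWT) {φ τ : ℝ → ℝ} {A p : ℝ} (hG : Graph φ τ) (hA : 0 < A)
    (hGap : GapP A p τ) (hp : 1 < p) (u s b : ℕ) (y : ℝ) (hu : 1 ≤ u) (hy : 2 ≤ y) :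
    ({a : ℕ | a < 2 ^ u ∧ Q_TWC τ u s y a b}.ncard : ℝ) ≤ min ((2 : ℝ) ^ u) (2 * y ^ 3) := by
  have h1 : ({a : ℕ | a < 2 ^ u ∧ Q_TWC τ u s y a b}.ncard : ℝ) ≤ (2 : ℝ) ^ u := by
    have h2 : {a : ℕ | a < 2 ^ u ∧ Q_TWC τ u s y a b} ⊆ ((Finset.range (2 ^ u) : Finset ℕ) : Set ℕ) := by
      intro a ha
      exact Finset.mem_coe.2 (Finset.mem_range.2 ha.1)
    have h3 := Set.ncard_le_ncard h2 (Finset.finite_toSet _)
    rw [Set.ncard_coe_finset, Finset.card_range] at h3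
    exact_mod_cast h3
  refine le_min h1 ?_
  by_cases hc : (2 : ℝ) ^ u < y ^ 3
  · have : 0 ≤ y ^ 3 := by positivity
    linarith
  · have e : {a : ℕ | a < 2 ^ u ∧ Q_TWC τ u s y a b} = {a : ℕ | a < 2 ^ u ∧
        |sl τ u a - sl τ (u + s) b| ≤ (2 : ℝ) ^ (-((Wt τ u y (sl τ u a) + 1 : ℕ) : ℤ))} := by
      ext a
      simp only [Q_TWC, mem_ofPred_eq, hc, false_or]
    rw [e]
    refine ((hWT φ τ A p hG hA hGap hp u y (sl τ (u + s) b) hu hy).2.2.2.2.2).trans ?_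
    have h4 : y ≤ y ^ 3 := by
      have : 1 ≤ y ^ 2 := by nlinarith
      nlinarith
    linarith

theorem hTWC3 (hBTW : StBTW) (hPPG : StPPG3) (hWT : StWT) (hCQ : StCQ) (hCN : StCN)
    (hGPG : StGPG) : StTWC3 := by
  intro φ τ A p c hG hA hGap hp hp3
  obtain ⟨B, hB1, hB⟩ := hBTW φ τ A p c hG hA hGap hp
  obtain ⟨CP, C2, hCP1, hC2, hP⟩ := hPPG φ τ A p c hG hA hGap hp hp3
  obtain ⟨q, hq'⟩ := pow_unbounded_of_one_lt B (show (1 : ℝ) < 2 by norm_num)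
  have hq : B ≤ (2 : ℝ) ^ q := hq'.le
  have hBp : 0 < B := by linarith
  refine ⟨64 * B ^ 2 + CP + 16, 256 + 32 * (q + 1) + C2, by nlinarith, by omega, ?_⟩
  intro u s t ρ g g' G hu hs hg hg' hg01 hg01' hLoc
  have hCB : B ≤ 64 * B ^ 2 + CP + 16 := by nlinarith
  have hCP : CP ≤ 64 * B ^ 2 + CP + 16 := by nlinarith
  have hu1 := lin_TWC q t ρ u _ (Nat.le_add_right _ C2) hu
  have hs1 := lin_TWC q t ρ s _ (Nat.le_add_right _ C2) hs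
  have hu2 : C2 * (t + ρ + 1) ≤ u + s := by
    refine le_trans ?_ (hu.trans (Nat.le_add_right u s))
    exact Nat.mul_le_mul_right _ (by omega)
  obtain ⟨n1, n2, n3, n4, n5, n6⟩ := num_TWC q t ρ u s B hB1 hq hu1 hs1
  set y : ℝ := (2 : ℝ) ^ ((s : ℝ) / 256) with hy
  have hy2 : 2 ≤ y := by
    rw [hy]
    calc (2 : ℝ) = (2 : ℝ) ^ (1 : ℝ) := (Real.rpow_one 2).symm
      _ ≤ (2 : ℝ) ^ ((s : ℝ) / 256) := by
        refine Real.rpow_le_rpow_of_exponent_le (by norm_num) ?_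
        have : (256 : ℝ) ≤ s := by
          have : 256 ≤ s := by omega
          exact_mod_cast this
        linarith
  set η : ℝ := (2 : ℝ) ^ (-((ρ : ℤ) + 1)) with hη
  have hη0 : 0 < η := by rw [hη]; positivity
  have hη1 : η ≤ 1 := by
    rw [hη]
    exact zpow_le_one_of_nonpos₀ (by norm_num) (by omega)
  set D : ℝ := (4 : ℝ) ^ ((t : ℤ) - u - ρ) with hD
  set D' : ℝ := (4 : ℝ) ^ ((t : ℤ) - u - s - ρ) with hD'
  set κ₁ : ℝ := (2 : ℝ) ^ (-((s : ℝ) / 4)) with hκ₁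
  have hD0 : 0 < D := by rw [hD]; positivity
  have hD0' : 0 < D' := by rw [hD']; positivity
  have hκ₁0 : 0 < κ₁ := Real.rpow_pos_of_pos (by norm_num) _
  set κ : ℝ := (2 : ℝ) ^ (-((s : ℝ) / 16)) + B * D with hκ
  have hκ0 : 0 < κ := by
    have := Real.rpow_pos_of_pos (show (0 : ℝ) < 2 by norm_num) (-((s : ℝ) / 16))
    positivity
  -- the exceptional sets
  set S2 : ℤ → Set Pl := fun k => {x | y ^ 3 ≤ (2 : ℝ) ^ u ∧ ∃ a < 2 ^ u, ENNReal.ofReal (η / 2) ≤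
    MD (sl τ u a) (ce c φ u a) (mm τ u a) (mp τ u a) (10000 * (Wt τ u y (sl τ u a) + (ρ + 1)))
      k g x} with hS2
  set S3 : ℤ → Set Pl := fun k => {x | ∃ b < 2 ^ (u + s), ENNReal.ofReal (η / 2) ≤
    MD (sl τ (u + s) b) (ce c φ (u + s) b) (mm τ (u + s) b) (mp τ (u + s) b)
      (10000 * (Wt τ (u + s) y (sl τ (u + s) b) + (ρ + 1))) k g' x} with hS3
  have hη4 : 1 / (η / 2) ^ 2 ≤ (64 * B ^ 2 + CP + 16) * (4 : ℝ) ^ ρ := by
    have e1 : 1 / (η / 2) ^ 2 = 16 * (4 : ℝ) ^ ρ := by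
      rw [hη, zpow_neg, div_pow, inv_pow, one_div_div, div_inv_eq_mul, ← zpow_natCast ((2 : ℝ) ^ ((ρ : ℤ) + 1)),
        ← zpow_mul, mul_comm ((ρ : ℤ) + 1), zpow_mul, zpow_add₀ (by norm_num), zpow_one, zpow_natCast]
      norm_num
      ring
    rw [e1]
    have : (16 : ℝ) ≤ 64 * B ^ 2 + CP + 16 := by nlinarith
    exact mul_le_mul_of_nonneg_right this (by positivity)
  have b2 : ∑' k, volume (S2 k) ≤ ENNReal.ofReal ((64 * B ^ 2 + CP + 16) * (4 : ℝ) ^ ρ) *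
      (if y ^ 3 ≤ (2 : ℝ) ^ u then BU c φ τ y (ρ + 1) u g else 0) := by
    by_cases hc : y ^ 3 ≤ (2 : ℝ) ^ u
    · rw [if_pos hc]
      unfold BU
      rw [← ENNReal.tsum_mul_left]
      refine ENNReal.tsum_le_tsum fun k => ?_
      refine (measure_mono (fun x hx => hx.2)).trans ((cheb_TWC (2 ^ u) _ (fun a => ?_) (η / 2)
        (by positivity)).trans ?_)
      · exact meas_MD_TWC _ _ _ _ _ _ _ hg.1
      · exact mul_le_mul' (ENNReal.ofReal_le_ofReal hη4) le_rfl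
    · rw [if_neg hc, mul_zero, nonpos_iff_eq_zero, ENNReal.tsum_eq_zero]
      intro k
      have : S2 k = ∅ := by
        ext x
        simp only [hS2, mem_ofPred_eq, hc, false_and, mem_empty_iff_false]
      rw [this, measure_empty]
  have b3 : ∑' k, volume (S3 k) ≤ ENNReal.ofReal ((64 * B ^ 2 + CP + 16) * (4 : ℝ) ^ ρ) *
      BU c φ τ y (ρ + 1) (u + s) g' := by
    unfold BU
    rw [← ENNReal.tsum_mul_left]
    refine ENNReal.tsum_le_tsum fun k => ?_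
    refine (cheb_TWC (2 ^ (u + s)) _ (fun a => ?_) (η / 2) (by positivity)).trans ?_
    · exact meas_MD_TWC _ _ _ _ _ _ _ hg'.1
    · exact mul_le_mul' (ENNReal.ofReal_le_ofReal hη4) le_rfl
  -- persistent pairs
  have hPD : (4 : ℝ) ^ ((t : ℤ) - (u + s : ℕ) - ρ) = D' := by
    rw [hD']
    congr 1
    push_cast
    ring
  have b4 := hP u (u + s) t ρ g g' G (by omega) (by omega) hu2 hg hg' hg01 hg01'
    (fun x hx => by rw [hPD]; exact loc_TWC hCP (hLoc x hx).2)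
  -- pairs without persistence
  have hYb : (2 : ℝ) ≤ (2 : ℝ) ^ (s - 1) := by
    calc (2 : ℝ) = (2 : ℝ) ^ 1 := (pow_one 2).symm
      _ ≤ (2 : ℝ) ^ (s - 1) := pow_le_pow_right₀ (by norm_num) (by omega)
  have hYb' : (2 : ℝ) ^ (s - 1) ≤ (2 : ℝ) ^ (u + s - u) - 1 := by
    rw [show u + s - u = (s - 1) + 1 by omega, pow_succ]
    linarith
  have hM0 : 0 ≤ min ((2 : ℝ) ^ u) (2 * y ^ 3) := by positivity
  have b1 := hB u (u + s) ((2 : ℝ) ^ (s - 1)) (min ((2 : ℝ) ^ u) (2 * y ^ 3)) κ κ₁ η D D'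
    (Q_TWC τ u s y) g g' G (by omega) (by omega) hYb hYb' hη0 hη1 hκ0 hκ₁0 n1 n2 hD0.le hD0'.le
    (by rw [hκ]; linarith [Real.rpow_pos_of_pos (show (0 : ℝ) < 2 by norm_num) (-((s : ℝ) / 16))])
    n3 hM0 (fun b _ => card_TWC hWT hG hA hGap hp u s b y (by omega) hy2) hg hg' hg01 hg01'
    (fun x hx => ⟨loc_TWC hCB (hLoc x hx).1, loc_TWC hCB (hLoc x hx).2⟩)
  have b1' := b1.trans (add_le_add (add_le_add
    (mul_le_mul' (ENNReal.ofReal_le_ofReal (show B / κ₁ ^ 2 ≤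
      (64 * B ^ 2 + CP + 16) * (2 : ℝ) ^ ((s : ℝ) / 2) by
        rw [n4]
        exact mul_le_mul_of_nonneg_right hCB (Real.rpow_pos_of_pos (by norm_num) _).le)) le_rfl)
    (mul_le_mul' (ENNReal.ofReal_le_ofReal (show B * κ₁ / (η ^ 2 * κ ^ 2) ≤
      (64 * B ^ 2 + CP + 16) * (4 : ℝ) ^ ρ * (2 : ℝ) ^ (-((s : ℝ) / 8)) by
        refine n5.trans (mul_le_mul_of_nonneg_right (mul_le_mul_of_nonneg_right (by nlinarith)
          (by positivity)) (Real.rpow_pos_of_pos (by norm_num) _).le))) le_rfl))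
    (mul_le_mul' (ENNReal.ofReal_le_ofReal (show B * κ * min ((2 : ℝ) ^ u) (2 * y ^ 3) / η ^ 5 ≤
      (64 * B ^ 2 + CP + 16) * (32 : ℝ) ^ ρ *
        ((2 : ℝ) ^ (-((s : ℝ) / 32)) + (4 : ℝ) ^ t * (2 : ℝ) ^ (-(u : ℝ))) by
        refine (n6 _ hM0 (min_le_left _ _) (min_le_right _ _)).trans
          (mul_le_mul_of_nonneg_right (mul_le_mul_of_nonneg_right (by linarith)
          (by positivity)) ?_)
        have z1 := Real.rpow_pos_of_pos (show (0 : ℝ) < 2 by norm_num) (-((s : ℝ) / 32))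
        have z2 := Real.rpow_pos_of_pos (show (0 : ℝ) < 2 by norm_num) (-(u : ℝ))
        positivity)) le_rfl))
  have b4' := b4.trans (add_le_add
    (mul_le_mul' (ENNReal.ofReal_le_ofReal (show CP * (2 : ℝ) ^ (-(((u + s : ℕ) : ℝ) / 4)) *
      (2 : ℝ) ^ (p * u) ≤ (64 * B ^ 2 + CP + 16) * (2 : ℝ) ^ (-(((u : ℝ) + s) / 4)) *
        (2 : ℝ) ^ (p * u) by
        rw [Nat.cast_add]
        exact mul_le_mul_of_nonneg_right (mul_le_mul_of_nonneg_right hCP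
          (Real.rpow_pos_of_pos (by norm_num) _).le) (Real.rpow_pos_of_pos (by norm_num) _).le))
      le_rfl)
    (mul_le_mul' (ENNReal.ofReal_le_ofReal (show CP * (2 : ℝ) ^ (-((u + s : ℕ) : ℝ)) ≤
      (64 * B ^ 2 + CP + 16) * (2 : ℝ) ^ (-((u : ℝ) + s)) by
        rw [Nat.cast_add]
        exact mul_le_mul_of_nonneg_right hCP (Real.rpow_pos_of_pos (by norm_num) _).le)) le_rfl))
  -- the covering
  refine le_trans (ENNReal.tsum_le_tsum fun k => ?_)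
    (?_ : ∑' k : ℤ, (volume {x | x ∈ G ∧ ∃ a < 2 ^ u, ∃ b < 2 ^ (u + s), Q_TWC τ u s y a b ∧
        η ≤ |Zc c φ τ u 0 k a g x| ∧ η ≤ |Zc c φ τ (u + s) 0 k b g' x|} +
      (volume (S2 k) + (volume (S3 k) + volume {x | x ∈ G ∧ ∃ a < 2 ^ u, ∃ b < 2 ^ (u + s),
        sl τ u a ≠ sl τ (u + s) b ∧ ∀ i ∈ Finset.Icc 1 41,
          η / 2 ≤ |Zc c φ τ u (i * ga (sl τ u a) (sl τ (u + s) b) (ρ + 1)) k a g x| ∧
          η / 2 ≤ |Zc c φ τ (u + s) (i * ga (sl τ u a) (sl τ (u + s) b) (ρ + 1)) k b g' x|}))) ≤ _)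
  · refine (measure_mono ?_).trans ((measure_union_le _ _).trans (add_le_add le_rfl
      ((measure_union_le _ _).trans (add_le_add le_rfl (measure_union_le _ _)))))
    rintro x ⟨hxG, ⟨a, ha, hza⟩, ⟨b, hb, hzb⟩⟩
    by_cases hQ : Q_TWC τ u s y a b
    · exact Or.inl ⟨hxG, a, ha, b, hb, hQ, hza, hzb⟩
    right
    unfold Q_TWC at hQ
    rw [not_or] at hQ
    obtain ⟨hQ1, hQ2⟩ := hQ
    by_cases h2 : ENNReal.ofReal (η / 2) ≤ MD (sl τ u a) (ce c φ u a) (mm τ u a) (mp τ u a)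
        (10000 * (Wt τ u y (sl τ u a) + (ρ + 1))) k g x
    · exact Or.inl ⟨not_lt.1 hQ1, a, ha, h2⟩
    right
    by_cases h3 : ENNReal.ofReal (η / 2) ≤ MD (sl τ (u + s) b) (ce c φ (u + s) b)
        (mm τ (u + s) b) (mp τ (u + s) b)
        (10000 * (Wt τ (u + s) y (sl τ (u + s) b) + (ρ + 1))) k g' x
    · exact Or.inl ⟨b, hb, h3⟩
    right
    obtain ⟨hne, hga⟩ := gap_TWC hWT hCQ hCN hGPG hG hA hGap hp u s ρ a b y (by omega) (by omega)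
      hy2 (not_le.1 hQ2)
    refine ⟨hxG, a, ha, b, hb, hne, fun i hi => ⟨?_, ?_⟩⟩
    · exact pers_TWC hza h2 (hga i hi).1
    · exact pers_TWC hzb h3 (hga i hi).2
  · rw [ENNReal.tsum_add, ENNReal.tsum_add, ENNReal.tsum_add]
    refine (add_le_add b1' (add_le_add b2 (add_le_add b3 b4'))).trans (le_of_eq ?_)
    unfold WR MI
    ring

end Pool.Agent.Helper20.P3F
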