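import Pool.Agent.Helper20.EQ.Asm
import Pool.Agent.Helper20.P3F.M_TWC3
import Pool.Agent.Helper20.RG.Asm
import Pool.Agent.Helper21.P3F.M_NVB3
import Pool.Agent.Helper29.EP.M_GPG
import Pool.Agent.Helper29.P3F.M_PPG3
import Pool.Agent.Helper37.P3F.M_NVA3
import Pool.Agent.Helper39.P3F.M_FWC3
import Pool.Agent.Helper4.P3F.M_ONE3
import Pool.Agent.Helper47.P3F.M_LOS3
import Pool.Agent.Helper61.P3.Asm
import Pool.Agent.Helper69.P3F.M_HBS3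
import Pool.Agent.Helper69.P3F.M_PIG3
import Pool.Agent.Helper75.P3F.M_HAS3
import Pool.Agent.Helper79.P3F.M_FWS3
import Pool.Agent.Helper8.P3F.M_FEW
import Pool.Agent.Helper81.P3F.M_NVD3
import Pool.Agent.Helper97.P3F.M_NVC3

/-!
# Project P3F (MP_cb927e_an): assembly; the theorem for `p = 3` (`pP3_MA3`)
-/

set_option autoImplicit false

namespace Pool.Agent.Helper20.P3F

theorem pP3F_PIG3 : Pool.Agent.Helper20.P3F.StPIG3 :=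
  Pool.Agent.Helper69.P3F.hPIG3 Pool.Agent.Helper20.RG.pYB

theorem pP3F_ONE3 : Pool.Agent.Helper20.P3F.StONE3 :=
  Pool.Agent.Helper4.P3F.hONE3 Pool.Agent.Helper20.EQ.pGDL Pool.Agent.Helper20.EQ.pRIX Pool.Agent.Helper20.EQ.pMIQ

theorem pP3F_PPG3 : Pool.Agent.Helper20.P3F.StPPG3 :=
  Pool.Agent.Helper29.P3F.hPPG3 Pool.Agent.Helper20.EQ.pPPF

theorem pP3F_TWC3 : Pool.Agent.Helper20.P3F.StTWC3 :=
  Pool.Agent.Helper20.P3F.hTWC3 Pool.Agent.Helper20.EQ.pBTW pP3F_PPG3 Pool.Agent.Helper20.EQ.pWT Pool.Agent.Helper20.EQ.pCQ Pool.Agent.Helper20.EQ.pCN Pool.Agent.Helper29.EP.hGPG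

theorem pP3F_HBS3 : Pool.Agent.Helper20.P3F.StHBS3 :=
  Pool.Agent.Helper69.P3F.hHBS3 pP3F_TWC3 Pool.Agent.Helper20.EQ.pGDL Pool.Agent.Helper20.EQ.pRIX Pool.Agent.Helper20.EQ.pBUN Pool.Agent.Helper20.EQ.pWRF Pool.Agent.Helper20.EQ.pMIQ

theorem pP3F_LOS3 : Pool.Agent.Helper20.P3F.StLOS3 :=
  Pool.Agent.Helper47.P3F.hLOS3 Pool.Agent.Helper20.EQ.pVL Pool.Agent.Helper20.EQ.pWCV Pool.Agent.Helper37.P3F.hNVA3 Pool.Agent.Helper21.P3F.hNVB3 Pool.Agent.Helper97.P3F.hNVC3 Pool.Agent.Helper81.P3F.hNVD3 Pool.Agent.Helper20.EQ.pDFZ Pool.Agent.Helper20.RG.pFAM Pool.Agent.Helper20.RG.pSYS Pool.Agent.Helper29.EP.hGPG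

theorem pP3F_FWC3 : Pool.Agent.Helper20.P3F.StFWC3 :=
  Pool.Agent.Helper39.P3F.hFWC3 pP3F_PPG3 Pool.Agent.Helper20.EQ.pWT Pool.Agent.Helper20.RG.pYB

theorem pP3F_FWS3 : Pool.Agent.Helper20.P3F.StFWS3 :=
  Pool.Agent.Helper79.P3F.hFWS3 pP3F_FWC3 Pool.Agent.Helper20.EQ.pGDL Pool.Agent.Helper20.EQ.pRIX Pool.Agent.Helper20.EQ.pBUN

theorem pP3F_HAS3 : Pool.Agent.Helper20.P3F.StHAS3 :=
  Pool.Agent.Helper75.P3F.hHAS3 pP3F_LOS3 pP3F_FWS3 Pool.Agent.Helper20.EQ.pGDL Pool.Agent.Helper20.EQ.pRIX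

theorem pP3F_FEW : Pool.Agent.Helper20.P3F.StFEW :=
  Pool.Agent.Helper8.P3F.hFEW pP3F_PIG3 pP3F_ONE3 pP3F_HBS3 pP3F_HAS3

theorem pP3_FEW : Pool.Agent.Helper61.P3.StFEW :=
  pP3F_FEW

theorem pP3_MA3 : Pool.Agent.Helper61.P3.StMA3 :=
  Pool.Agent.Helper61.P3.pMA3 pP3_FEW

end Pool.Agent.Helper20.P3F
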