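import Pool.Agent.Helper20.EQ.St5
import Pool.Agent.Helper61.P3.Defs

/-!
# Project P3F (MP_cb927e_an): p = 3, the heights with `u ≤ κ n`, and the final assembly at `p = 3`

Project EQ (Pool/Agent/Helper20/EQ, all modules proved, Pool/Agent/Helper20/EQ/Asm.lean) for the exponent `p = 3`.  Every module here is an adaptation of a
module of project EQ; the docstring names the file to be copied.  `e1 p` is replaced by a small number `e`, `dl p` by `e / 20`.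
-/

set_option autoImplicit false

open MeasureTheory Set Filter Topology
open scoped ENNReal RealInnerProductSpace

namespace Pool.Agent.Helper20.P3F

open Pool.Agent.Helper68.LM (Pl BB Bd Av HL ft fm DQ)
open Pool.Agent.Helper20.RG
open Pool.Agent.Helper20.EQ
open Pool.Agent.Helper61.P3
open Pool.Agent.Helper68.EP (elt GapP)
open Pool.Agent.Helper61.Lacunary (ConditionG LpBounded)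

/-- the exponent of `2` in the bounds for one class (`EQ.tg` with `p = 3` and `e` instead of `e1 p`) -/
noncomputable def tge (e : ℝ) (u t ρ : ℕ) : ℝ := 3 * u - 3 * ((t : ℝ) - ρ) - e * t

/-- the numerical situation (`EQ.Nu` with `e` instead of `e1 p`, `e / 20` instead of `dl p`, and `u ≤ κ (u - t + ρ + 1)`) -/
def Nue (e : ℝ) (κ Cρ u v t ρ : ℕ) (η m₁ : ℝ) : Prop :=
  2 ≤ u ∧ v = (Cρ + 1) * u ∧ (u : ℝ) ≤ (2 : ℝ) ^ (e / 20 * t) ∧ (1 - e) * t ≤ u ∧ ρ ≤ Cρ * t ∧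
    η = (2 : ℝ) ^ (-((ρ : ℤ) + 2)) ∧ m₁ = (2 : ℝ) ^ ((1 - e) * t) / (2 * (3 * v + 2)) ∧
    (u : ℝ) ≤ κ * ((u : ℝ) - t + ρ + 1)

/-- PPG3 (about 150 lines).  Copy Pool/Agent/Helper83/EQ/M_PPG.lean; `p < 3` becomes `p ≤ 3` (only used as `p ≤ 3`).  Hypotheses: hPPF. -/
def StPPG3 : Prop :=
  ∀ (φ τ : ℝ → ℝ) (A p : ℝ) (c : Pl), Graph φ τ → 0 < A → GapP A p τ → 1 < p → p ≤ 3 →
    ∃ (C : ℝ) (C₂ : ℕ), 1 ≤ C ∧ 1 ≤ C₂ ∧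
    ∀ (u u' t ρ : ℕ) (g g' : Pl → ℝ) (G : Set Pl), 2 ≤ u → u ≤ u' → C₂ * (t + ρ + 1) ≤ u' → BB g → BB g' →
      (∀ x, 0 ≤ g x ∧ g x ≤ 1) → (∀ x, 0 ≤ g' x ∧ g' x ≤ 1) →
      (∀ x ∈ G, Loc C ((4 : ℝ) ^ ((t : ℤ) - u' - ρ)) g' x) →
      ∑' k : ℤ, volume {x | x ∈ G ∧ ∃ a < 2 ^ u, ∃ b < 2 ^ u', sl τ u a ≠ sl τ u' b ∧
        ∀ i ∈ Finset.Icc 1 41,
          (2 : ℝ) ^ (-((ρ : ℤ) + 1)) / 2 ≤ |Zc c φ τ u (i * ga (sl τ u a) (sl τ u' b) (ρ + 1)) k a g x| ∧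
          (2 : ℝ) ^ (-((ρ : ℤ) + 1)) / 2 ≤ |Zc c φ τ u' (i * ga (sl τ u a) (sl τ u' b) (ρ + 1)) k b g' x|} ≤
        ENNReal.ofReal (C * (2 : ℝ) ^ (-((u' : ℝ) / 4)) * (2 : ℝ) ^ (p * u)) * (∫⁻ x, ‖g x‖ₑ ^ 2) +
        ENNReal.ofReal (C * (2 : ℝ) ^ (-(u' : ℝ))) * ∫⁻ x, ‖g' x‖ₑ ^ 2

/-- TWC3 (about 520 lines).  Copy Pool/Agent/Helper47/EQ/M_TWC.lean; `p < 3` becomes `p ≤ 3`, hPPG becomes hPPG3.  Hypotheses: hBTW, hPPG3, hWT, hCQ, hCN, hGPG. -/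
def StTWC3 : Prop :=
  ∀ (φ τ : ℝ → ℝ) (A p : ℝ) (c : Pl), Graph φ τ → 0 < A → GapP A p τ → 1 < p → p ≤ 3 →
    ∃ (C : ℝ) (C₂ : ℕ), 1 ≤ C ∧ 1 ≤ C₂ ∧
    ∀ (u s t ρ : ℕ) (g g' : Pl → ℝ) (G : Set Pl), C₂ * (t + ρ + 1) ≤ u → C₂ * (t + ρ + 1) ≤ s →
      BB g → BB g' → (∀ x, 0 ≤ g x ∧ g x ≤ 1) → (∀ x, 0 ≤ g' x ∧ g' x ≤ 1) →
      (∀ x ∈ G, Loc C ((4 : ℝ) ^ ((t : ℤ) - u - ρ)) g x ∧ Loc C ((4 : ℝ) ^ ((t : ℤ) - u - s - ρ)) g' x) →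
      ∑' k : ℤ, volume {x | x ∈ G ∧ (Hh c φ τ u ρ k g x).Nonempty ∧ (Hh c φ τ (u + s) ρ k g' x).Nonempty} ≤
        ENNReal.ofReal (C * (4 : ℝ) ^ ρ) *
          ((if ((2 : ℝ) ^ ((s : ℝ) / 256)) ^ 3 ≤ (2 : ℝ) ^ u then
            BU c φ τ ((2 : ℝ) ^ ((s : ℝ) / 256)) (ρ + 1) u g else 0) +
            BU c φ τ ((2 : ℝ) ^ ((s : ℝ) / 256)) (ρ + 1) (u + s) g') +
        (ENNReal.ofReal (C * (2 : ℝ) ^ (-(((u : ℝ) + s) / 4)) * (2 : ℝ) ^ (p * u)) * (∫⁻ x, ‖g x‖ₑ ^ 2) +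
          ENNReal.ofReal (C * (2 : ℝ) ^ (-((u : ℝ) + s))) * ∫⁻ x, ‖g' x‖ₑ ^ 2) +
        (ENNReal.ofReal (C * (2 : ℝ) ^ ((s : ℝ) / 2)) * WR τ ((2 : ℝ) ^ (s - 1)) 12 30 (u + s) g' +
          ENNReal.ofReal (C * (4 : ℝ) ^ ρ * (2 : ℝ) ^ (-((s : ℝ) / 8))) * WR τ 2 6 16 u g +
          ENNReal.ofReal (C * (32 : ℝ) ^ ρ * ((2 : ℝ) ^ (-((s : ℝ) / 32)) + (4 : ℝ) ^ t * (2 : ℝ) ^ (-(u : ℝ)))) *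
            MI c φ τ (u + s) g')

/-- HBS3 (about 670 lines).  Copy Pool/Agent/Helper2/EQ/M_HBS.lean; `p < 3` becomes `p ≤ 3`, hTWC becomes hTWC3.  Hypotheses: hTWC3, hGDL, hRIX, hBUN, hWRF, hMIQ. -/
def StHBS3 : Prop :=
  ∀ (φ τ : ℝ → ℝ) (A p : ℝ) (c : Pl), Graph φ τ → 0 < A → GapP A p τ → 2 < p → p ≤ 3 →
    ∃ (C : ℝ) (C₂ : ℕ), 1 ≤ C ∧ 1 ≤ C₂ ∧ ∀ (R₀ : ℝ) (t ρ : ℕ) (f : Pl → ℝ), C ≤ R₀ → BB f → (∀ x, 0 ≤ f x) →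
      ∑' l : ℤ, ENNReal.ofReal ((2 : ℝ) ^ (p * l)) * ∑' (u : ℕ) (s : ℕ),
        (if C₂ * (t + ρ + 1) ≤ u ∧ C₂ * (t + ρ + 1) ≤ s then
          ∑' k : ℤ, volume {x | Gd R₀ l f x ∧ (Hh c φ τ u ρ k (lev f (l - t + u + ρ)) x).Nonempty ∧
            (Hh c φ τ (u + s) ρ k (lev f (l - t + (u + s) + ρ)) x).Nonempty} else 0) ≤
        ENNReal.ofReal (C * (2 : ℝ) ^ (-((t : ℝ) + ρ))) * ∫⁻ x, ENNReal.ofReal (f x) ^ p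

/-- ONE3 (about 120 lines).  Copy Pool/Agent/Helper2/EQ/M_ONE.lean; `p < 3` becomes `p ≤ 3` (not used).  Hypotheses: hGDL, hRIX, hMIQ. -/
def StONE3 : Prop :=
  ∀ (φ τ : ℝ → ℝ) (A p : ℝ) (c : Pl), Graph φ τ → 0 < A → GapP A p τ → 2 < p → p ≤ 3 →
    ∃ C : ℝ, 0 < C ∧ ∀ (t : ℤ) (ρ : ℕ) (f : Pl → ℝ), BB f → (∀ x, 0 ≤ f x) →
      ∑' l : ℤ, ENNReal.ofReal ((2 : ℝ) ^ (p * l)) * ∑' u : ℕ, (if 2 ≤ u then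
        ∑' k : ℤ, volume {x | (Hh c φ τ u ρ k (lev f (l - t + u + ρ)) x).Nonempty} else 0) ≤
        ENNReal.ofReal (C * (2 : ℝ) ^ (p * t - (p - 2) * ρ)) * ∫⁻ x, ENNReal.ofReal (f x) ^ p

/-- FWC3 (about 320 lines).  Copy Pool/Agent/Helper30/EQ/M_FWC.lean; `p < 3` becomes `p ≤ 3`, hPPG becomes hPPG3.  Hypotheses: hPPG3, hWT, hYB. -/
def StFWC3 : Prop :=
  ∀ (φ τ : ℝ → ℝ) (A p : ℝ) (c : Pl), Graph φ τ → 0 < A → GapP A p τ → 1 < p → p ≤ 3 →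
    ∃ (C : ℝ) (C₂ : ℕ), 1 ≤ C ∧ 1 ≤ C₂ ∧
    ∀ (u t ρ : ℕ) (m : ℝ) (g : Pl → ℝ) (G : Set Pl), C₂ * (t + ρ + 1) ≤ u → 16 ≤ m →
      BB g → (∀ x, 0 ≤ g x ∧ g x ≤ 1) → (∀ x ∈ G, Loc C ((4 : ℝ) ^ ((t : ℤ) - u - ρ)) g x) →
      ∑' k : ℤ, volume {x | x ∈ G ∧ m ≤ ((Hh c φ τ u ρ k g x).ncard : ℝ)} ≤
        ENNReal.ofReal (C * (4 : ℝ) ^ ρ / m) * BU c φ τ (m / 8) (ρ + 1) u g +
        ENNReal.ofReal (C * (2 : ℝ) ^ (-((u : ℝ) / 4)) * (2 : ℝ) ^ (p * u)) * ∫⁻ x, ‖g x‖ₑ ^ 2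

/-- FWS3 (about 340 lines).  Copy Pool/Agent/Helper64/EQ/M_FWS.lean; `p < 3` becomes `p ≤ 3`, hFWC becomes hFWC3.  (At `p = 3`: `-t/(p+1) + ε t (p + 1/(p+1)) = -t/4 + (13/4) ε t ≤ -t/16`.)  Hypotheses: hFWC3, hGDL, hRIX, hBUN. -/
def StFWS3 : Prop :=
  ∀ (φ τ : ℝ → ℝ) (A p : ℝ) (c : Pl), Graph φ τ → 0 < A → GapP A p τ → 2 < p → p ≤ 3 →
    ∀ (ε δ : ℝ) (Cρ : ℕ), 0 < ε → ε ≤ 1 / 100 → 0 < δ →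
    ∃ (C : ℝ) (t₀ : ℕ), 1 ≤ C ∧ ∀ (R₀ : ℝ) (t ρ : ℕ) (f : Pl → ℝ), C ≤ R₀ → t₀ ≤ t → ρ ≤ Cρ * t → BB f →
      (∀ x, 0 ≤ f x) →
      ∑' l : ℤ, ENNReal.ofReal ((2 : ℝ) ^ (p * l)) * ∑' u : ℕ, (if (2 : ℝ) ^ (δ * t) < u then
        ∑' k : ℤ, volume {x | Gd R₀ l f x ∧ (2 : ℝ) ^ ((1 - ε) * t) ≤
          ((Hh c φ τ u ρ k (lev f (l - t + u + ρ)) x).ncard : ℝ)} else 0) ≤
        ENNReal.ofReal (C * (2 : ℝ) ^ (-((t : ℝ) / 16))) * ∫⁻ x, ENNReal.ofReal (f x) ^ p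

/-- EER3 (about 330 lines).  Copy Pool/Agent/Helper38/EQ/M_EER.lean; `p < 3` becomes `p ≤ 3` (not used).  Hypotheses: hYB, hERR, hGPG. -/
def StEER3 : Prop :=
  ∀ (φ τ : ℝ → ℝ) (A p : ℝ) (c : Pl), Graph φ τ → 0 < A → GapP A p τ → 2 < p → p ≤ 3 →
    ∃ C : ℝ, 0 < C ∧ ∀ f : Pl → ℝ, BB f → (∀ x, 0 ≤ f x) →
      ∑' l : ℤ, ENNReal.ofReal ((2 : ℝ) ^ (p * l)) * volume {x | ∃ (k : ℤ) (u : ℕ), 2 ≤ u ∧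
        (2 : ℝ) ^ l / (u : ℝ) ^ 2 ≤ |er c φ τ u k (fh l f) x|} ≤
        ENNReal.ofReal C * ∫⁻ x, ENNReal.ofReal (f x) ^ p

/-- NVA3 (about 170 lines), numbers.  Copy Pool/Agent/Helper36/EQ/M_NVA.lean with `p = 3`, `e` for `e1 p`, `e / 20` for `dl p`: the exponent minus `tge` is `2t - (9/4)u - ρ + 2et + (8/20)et`, and with `u ≥ (1-e)t` at most `-t/4 + 5et ≤ 0`.  (The last condition of `Nue` is not needed.)  Hypotheses: none. -/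
def StNVA3 : Prop :=
  ∀ (Cf A e : ℝ) (κ Cρ : ℕ), 1 ≤ Cf → 0 ≤ A → 0 < e → e ≤ 1 / 100 → ∃ (t₀ : ℕ) (C : ℝ), 0 < C ∧
    ∀ (u v t ρ : ℕ) (η m₁ : ℝ), t₀ ≤ t → Nue e κ Cρ u v t ρ η m₁ → ∃ T : ℕ, 1 ≤ T ∧
      1 / m₁ * (2 * Ms v / η) ^ 2 *
        (16 * v * (Cf * mu u A 3 ((2 : ℝ) ^ 0 * (1024 * (v : ℝ) ^ 2)) T)) ≤ C * (2 : ℝ) ^ tge e u t ρ

/-- NVB3 (about 350 lines), numbers.  Copy Pool/Agent/Helper41/EQ/M_NVB.lean with `p = 3`, `e` for `e1 p`, `e / 20` for `dl p`: exponent minus `tge` at most `-t/4 + 6et ≤ 0`.  (The last condition of `Nue` is not needed.)  Hypotheses: none. -/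
def StNVB3 : Prop :=
  ∀ (Cf A e : ℝ) (κ Cρ : ℕ), 1 ≤ Cf → 0 ≤ A → 0 < e → e ≤ 1 / 100 → ∃ (t₀ : ℕ) (C : ℝ), 0 < C ∧
    ∀ (u v t ρ : ℕ) (η m₁ : ℝ) (b : ℕ), t₀ ≤ t → Nue e κ Cρ u v t ρ η m₁ → 1 ≤ b → b ≤ 3 * v →
      m₁ < 200 * nv u v b A 3 → ∃ T : ℕ, 1 ≤ T ∧
      1 / m₁ * (2 * Ms v / η) ^ 2 *
        (16 * v * (Cf * mu u A 3 ((2 : ℝ) ^ b * (1024 * (v : ℝ) ^ 2)) T)) ≤ C * (2 : ℝ) ^ tge e u t ρ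

/-- NVC3 (about 250 lines), numbers for large `t`.  Copy Pool/Agent/Helper29/EQ/M_NVC.lean with `p = 3`, `e` for `e1 p`, `e / 20` for `dl p`.  (`nv u v (3v+1) A 3 ≤ 1 + A 2^(u - v) ≤ 1 + A`; the last condition of `Nue` is not needed.)  Hypotheses: none. -/
def StNVC3 : Prop :=
  ∀ (Cf A e : ℝ) (κ Cρ : ℕ), 1 ≤ Cf → 0 ≤ A → 0 < e → e ≤ 1 / 100 → ∃ (t₀ : ℕ) (C : ℝ), 0 < C ∧
    ∀ (u v t ρ : ℕ) (η m₁ K : ℝ), t₀ ≤ t → Nue e κ Cρ u v t ρ η m₁ → 0 ≤ K → K ≤ Cf * (2 : ℝ) ^ ((3 : ℝ) * u) →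
      1000 ≤ m₁ ∧ 200 * (64 * (16 * Cf * (4 : ℝ) ^ ((t : ℤ) - u - ρ) / η ^ 2)) ≤ m₁ ∧
      (2 : ℝ) ^ (-(3 * (v : ℤ))) ≤ η ∧ η ≤ 1 ∧ 200 * nv u v (3 * v + 1) A 3 ≤ m₁ ∧
      (1 / 2) ^ (16 * v) / (16 * Cf * (4 : ℝ) ^ ((t : ℤ) - u - ρ) / η ^ 2) *
        ((4 / η) ^ 2 * (Cf * (K + v + 1))) ≤ C * (2 : ℝ) ^ tge e u t ρ

/-- NVD3 (about 430 lines), numbers.  Copy Pool/Agent/Helper60/EQ/M_NVD.lean with `p = 3`, `e` for `e1 p`, `e / 20` for `dl p`.  Only the last exponent is new: the exponent minus `tge` is `2t - 2u - ρ + 3et + et + (12/20)et`.  By the last condition of `Nue`, `ρ ≥ u/κ - 1 - (u - t)`, so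
`-2(u-t) - ρ ≤ -(u-t) - u/κ + 1 ≤ et - (1-e)t/κ + 1` (`u ≥ (1-e)t`), and with `e ≤ 1/(100(κ+1))` the exponent is at most `1` (a factor `2` in `C`).  Hypotheses: none. -/
def StNVD3 : Prop :=
  ∀ (Cf A C₂ e : ℝ) (κ Cρ : ℕ), 1 ≤ Cf → 0 ≤ A → 0 < C₂ → 1 ≤ κ → 0 < e → e ≤ 1 / (100 * ((κ : ℝ) + 1)) →
    ∃ (t₀ : ℕ) (C : ℝ), 0 < C ∧
    ∀ (u v t ρ : ℕ) (η m₁ K : ℝ) (b : ℕ), t₀ ≤ t → Nue e κ Cρ u v t ρ η m₁ → 0 ≤ K →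
      K ≤ Cf * (2 : ℝ) ^ ((3 : ℝ) * u) → 1 ≤ b → b ≤ 3 * v + 1 →
      ∃ V : ℝ, 0 ≤ V ∧ (V = (4 / η) ^ 2 * (Cf * (K + v + 1)) ∨ (b ≤ 3 * v ∧ ∃ T : ℕ, 1 ≤ T ∧
        V = (4 * Ms v / η) ^ 2 * (16 * v * (Cf * mu u A 3 ((2 : ℝ) ^ b * (1024 * (v : ℝ) ^ 2)) T)))) ∧
      16 * v * (C₂ * nv u v b A 3 * (64 * (16 * Cf * (4 : ℝ) ^ ((t : ℤ) - u - ρ) / η ^ 2)) / m₁ ^ 3) * V ≤
        C * (2 : ℝ) ^ tge e u t ρ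

/-- LOS3 (about 590 lines), many hits in one class, `u ≤ κ (u - t + ρ + 1)`.  Copy Pool/Agent/Helper51/EQ/M_LOS.lean with `p = 3`, `e` for `e1 p`, `e / 20` for `dl p`; the new condition goes into `Nue`.  Hypotheses: hVL, hWCV, hNVA3, hNVB3, hNVC3, hNVD3, hDFZ, hFAM, hSYS, hGPG. -/
def StLOS3 : Prop :=
  ∀ (φ τ : ℝ → ℝ) (A e : ℝ) (c : Pl), Graph φ τ → 0 < A → GapP A 3 τ → ∀ κ Cρ : ℕ, 1 ≤ κ → 0 < e →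
    e ≤ 1 / (100 * ((κ : ℝ) + 1)) →
    ∃ (C : ℝ) (t₀ : ℕ), 1 ≤ C ∧ ∀ (u t ρ : ℕ) (g : Pl → ℝ) (G : Set Pl), t₀ ≤ t → 2 ≤ u →
      (u : ℝ) ≤ (2 : ℝ) ^ (e / 20 * t) → ρ ≤ Cρ * t → (u : ℝ) ≤ κ * ((u : ℝ) - t + ρ + 1) →
      BB g → (∀ x, 0 ≤ g x ∧ g x ≤ 1) →
      (∀ x ∈ G, Loc C ((4 : ℝ) ^ ((t : ℤ) - u - ρ)) g x) →
      ∑' k : ℤ, volume {x | x ∈ G ∧ (2 : ℝ) ^ ((1 - e) * t) ≤ ((Hh c φ τ u ρ k g x).ncard : ℝ)} ≤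
        ENNReal.ofReal (C * (2 : ℝ) ^ (tge e u t ρ + e / 20 * t)) * ∫⁻ x, ‖g x‖ₑ ^ 2

/-- HAS3 (about 160 lines).  Copy Pool/Agent/Helper85/EQ/M_HAS.lean with `p = 3`, `e` for `e1 p`, `e / 20` for `dl p`, hLOS3, hFWS3 (`ε = e`, `δ = e / 20`); for `u > 2^(e t/20)` drop the condition `u ≤ κ (u - t + ρ + 1)`, for the others it goes into LOS3.  Hypotheses: hLOS3, hFWS3, hGDL, hRIX. -/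
def StHAS3 : Prop :=
  ∀ (φ τ : ℝ → ℝ) (A e : ℝ) (c : Pl), Graph φ τ → 0 < A → GapP A 3 τ → ∀ κ Cρ : ℕ, 1 ≤ κ → 0 < e →
    e ≤ 1 / (100 * ((κ : ℝ) + 1)) →
    ∃ (C : ℝ) (t₀ : ℕ), 1 ≤ C ∧ ∀ (R₀ : ℝ) (t ρ : ℕ) (f : Pl → ℝ), C ≤ R₀ → t₀ ≤ t → ρ ≤ Cρ * t → BB f →
      (∀ x, 0 ≤ f x) →
      ∑' l : ℤ, ENNReal.ofReal ((2 : ℝ) ^ ((3 : ℝ) * l)) * ∑' u : ℕ,
        (if 2 ≤ u ∧ (u : ℝ) ≤ κ * ((u : ℝ) - t + ρ + 1) then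
        ∑' k : ℤ, volume {x | Gd R₀ l f x ∧ (2 : ℝ) ^ ((1 - e) * t) ≤
          ((Hh c φ τ u ρ k (lev f (l - t + u + ρ)) x).ncard : ℝ)} else 0) ≤
        ENNReal.ofReal (C * (2 : ℝ) ^ (-(e / 2 * t))) * ∫⁻ x, ENNReal.ofReal (f x) ^ (3 : ℝ)

/-- PIG3 (about 450 lines), pigeonhole for `HtF`.  As PIG (Pool/Agent/Helper14/EQ/M_PIG.lean), but the decomposition of `f` into heights is already in the definition of `HtF`: `J = l - 1 + n = l - t + u + ρ` with `t = u + ρ + 1 - n` (an integer), `2^(n-u-ρ) = 2^(1-t)`, and `u ≤ κ n` is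
`u ≤ κ (u - t + ρ + 1)`.  If none of the alternatives holds: `∑_u HtF ≤ ∑_t ∑_ρ 2^(1-t) n(t,ρ)`, `n(t,ρ) = ∑_{u ≥ 2, u ≤ κ(u-t+ρ+1)} #Hh ..`, is zero for `t ≤ t₀` and for `ρ ≥ Cρ t`, and otherwise at most `2L 2^((1-e)t)`, `L = C₂ (t+ρ+1)`; so the sum is `< 1/2` for `t₀` large.  Hypotheses: hYB. -/
def StPIG3 : Prop :=
  ∀ (φ τ : ℝ → ℝ) (e : ℝ) (c : Pl), Graph φ τ → 0 < e → e ≤ 1 / 100 → ∀ κ C₂ Cρ t₁ : ℕ, 1 ≤ κ → 1 ≤ C₂ →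
    ∃ t₀ : ℕ, t₁ ≤ t₀ ∧ ∀ (f : Pl → ℝ) (l k : ℤ) (x : Pl), BB f → (∀ x, 0 ≤ f x) →
      ENNReal.ofReal (1 / 2) ≤ ∑' u : ℕ, (if 2 ≤ u then HtF c φ τ κ u k l f x else 0) →
      (∃ (t : ℤ) (ρ u : ℕ), t ≤ t₀ ∧ 2 ≤ u ∧ (Hh c φ τ u ρ k (lev f (l - t + u + ρ)) x).Nonempty) ∨
      (∃ t ρ u : ℕ, t₀ ≤ t ∧ Cρ * t ≤ ρ ∧ 2 ≤ u ∧
        (Hh c φ τ u ρ k (lev f (l - t + u + ρ)) x).Nonempty) ∨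
      (∃ t ρ u s : ℕ, t₀ ≤ t ∧ ρ ≤ Cρ * t ∧ C₂ * (t + ρ + 1) ≤ u ∧ C₂ * (t + ρ + 1) ≤ s ∧
        (Hh c φ τ u ρ k (lev f (l - t + u + ρ)) x).Nonempty ∧
        (Hh c φ τ (u + s) ρ k (lev f (l - t + (u + s) + ρ)) x).Nonempty) ∨
      (∃ t ρ u : ℕ, t₀ ≤ t ∧ ρ ≤ Cρ * t ∧ 2 ≤ u ∧ (u : ℝ) ≤ κ * ((u : ℝ) - t + ρ + 1) ∧
        (2 : ℝ) ^ ((1 - e) * t) ≤ ((Hh c φ τ u ρ k (lev f (l - t + u + ρ)) x).ncard : ℝ))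

/-- FEW (about 320 lines), the statement `Pool.Agent.Helper61.P3.StFEW`.  Copy Pool/Agent/Helper64/EQ/M_EVS.lean with `p = 3`, `e = 1/(100(κ+1))` for `e1 p`, hPIG3, hONE3, hHBS3, hHAS3 (`(2:ℝ)^(3 * l)` in StFEW is an integer power: `Real.rpow_intCast`).  Hypotheses: hPIG3, hONE3, hHBS3, hHAS3. -/
def StFEW : Prop := Pool.Agent.Helper61.P3.StFEW

/-- HTS (about 120 lines), the heights of `fh l f`.  `fh l f = ∑_n 2^(l+n) lev f (l-1+n)` (finite sum for bounded `f`), linearity of `Zc` (YB) and the triangle inequality; every `n` satisfies exactly one of `u ≤ κ n`, `κ n < u`.  See the beginning of Pool/Agent/Helper14/EQ/M_PIG.lean.  Hypotheses: hYB. -/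
def StHTS : Prop :=
  ∀ (φ τ : ℝ → ℝ) (c : Pl), Graph φ τ → ∀ (κ u : ℕ) (f : Pl → ℝ) (l k : ℤ) (x : Pl), BB f → (∀ x, 0 ≤ f x) →
    Ht c φ τ u k (fh l f) x ≤
      ENNReal.ofReal ((2 : ℝ) ^ l) * (HtF c φ τ κ u k l f x + HtM c φ τ κ u k l f x)

/-- EVS3 (about 80 lines), EVS of project EQ at `p = 3`.  `κ` from StMANY (Pool/Agent/Helper61/P3/Defs), StFEW for this `κ`.  By HTS `2^l ≤ ∑_u Ht` implies `∑_u HtF ≥ 1/2` or `∑_u HtM ≥ 1/2`; the set is contained in the union of the two sets.  Hypotheses: hFEW, hMANY, hHTS. -/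
def StEVS3 : Prop :=
  ∀ (φ τ : ℝ → ℝ) (A : ℝ) (c : Pl), Graph φ τ → 0 < A → GapP A 3 τ →
    ∃ C : ℝ, 1 ≤ C ∧ ∀ (R₀ : ℝ) (f : Pl → ℝ), C ≤ R₀ → BB f → (∀ x, 0 ≤ f x) →
      ∑' l : ℤ, ENNReal.ofReal ((2 : ℝ) ^ ((3 : ℝ) * l)) * volume {x | Gd R₀ l f x ∧ ∃ k : ℤ,
        ENNReal.ofReal ((2 : ℝ) ^ l) ≤ ∑' u : ℕ, (if 2 ≤ u then Ht c φ τ u k (fh l f) x else 0)} ≤
        ENNReal.ofReal C * ∫⁻ x, ENNReal.ofReal (f x) ^ (3 : ℝ)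

/-- CRQ3 (about 310 lines).  Copy Pool/Agent/Helper78/EQ/M_CRQ.lean with `p = 3`, hEER3, hEVS3.  Hypotheses: hDMP, hEER3, hEVS3. -/
def StCRQ3 : Prop :=
  ∀ (φ τ : ℝ → ℝ) (A : ℝ) (c : Pl), Graph φ τ → 0 < A → GapP A 3 τ →
    ∃ C : ℝ, 0 < C ∧ ∀ g : Pl → ℝ, BB g → (∀ x, 0 ≤ g x) →
      ∫⁻ x, (⨆ k : ℤ, ENNReal.ofReal (Av (arc c φ) ((2 : ℝ) ^ k) g x)) ^ (3 : ℝ) ≤
        ENNReal.ofReal C * ∫⁻ x, ENNReal.ofReal (g x) ^ (3 : ℝ)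

/-- MAQ3 (about 60 lines), the theorem for `p = 3`.  Copy Pool/Agent/Helper24/EQ/M_MAQ.lean with `p = 3`, hCRQ3.  Hypotheses: hCOV, hCPP, hCRQ3, hRES, hFIN. -/
def StMAQ3 : Prop :=
  ∀ (Ω : Set Pl), IsOpen Ω → Convex ℝ Ω → Bornology.IsBounded Ω → (0 : Pl) ∈ Ω →
    ConditionG Ω 3 → LpBounded Ω 3

end Pool.Agent.Helper20.P3F
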